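import Pool.Agent.L5helper73.LD.B

/-!
# The numbers `N_m = 8 d_m ^ 2 + 1`: a lattice of multiplicative relations modulo a common divisor
-/

set_option autoImplicit false

namespace Pool.Agent.L5helper52.LC

open Finset Pool.Agent.R803.PV Pool.Agent.L5helper73.LD ArithmeticFunction

theorem pow_add' {R : Type*} [CommRing R] (s : R) (hs : s ^ 2 = 8) (m : ℕ) :
    (3 + s) ^ m = dd m + bb m * s := by
  induction m with
  | zero => simp [dd_zero, bb_zero]
  | succ m ih =>
    rw [pow_succ, ih, dd_succ, bb_succ]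
    push_cast
    linear_combination (bb m : R) * hs

theorem pow_sub' {R : Type*} [CommRing R] (s : R) (hs : s ^ 2 = 8) (m : ℕ) :
    (3 - s) ^ m = dd m - bb m * s := by
  have h := pow_add' (-s) (by rw [neg_sq]; exact hs) m
  rw [← sub_eq_add_neg] at h
  rw [h]
  ring

theorem exists_root {q m : ℕ} (h3 : Nat.Coprime 3 q) (h : q ∣ N m) :
    ∃ s : ZMod q, s ^ 2 = 8 ∧ (3 + s) ^ (2 * m) = -2 := by
  have h0 := (ZMod.natCast_eq_zero_iff (N m) q).2 h
  have h1 : (8 * (dd m : ZMod q) ^ 2 + 1) = 0 := by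
    have := h0
    rw [N_dd] at this
    push_cast at this
    exact this
  have h2 : (64 * (bb m : ZMod q) ^ 2 + 9) = 0 := by
    have := h0
    rw [N_bb] at this
    push_cast at this
    exact this
  have hi : (3 : ZMod q) * (3 : ZMod q)⁻¹ = 1 := by
    have := ZMod.coe_mul_inv_eq_one 3 h3
    exact_mod_cast this
  have hp : (dd m : ZMod q) ^ 2 = 8 * (bb m : ZMod q) ^ 2 + 1 := by
    have := congrArg (Nat.cast : ℕ → ZMod q) (pell' m)
    push_cast at this
    exact this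
  generalize (3 : ZMod q)⁻¹ = i at hi
  have hs : (-64 * (dd m : ZMod q) * (bb m : ZMod q) * i) ^ 2 = 8 := by
    linear_combination (8 * i ^ 2 * 64 * (bb m : ZMod q) ^ 2) * h1 - 8 * i ^ 2 * h2 + 8 * (3 * i + 1) * hi
  refine ⟨-64 * (dd m : ZMod q) * (bb m : ZMod q) * i, hs, ?_⟩
  rw [mul_comm 2 m, pow_mul, pow_add' _ hs]
  linear_combination ((bb m : ZMod q) ^ 2) * hs + (1 - 128 * (bb m : ZMod q) ^ 2 * i) * hp -
    i * (16 * (bb m : ZMod q) ^ 2 - 1) * h2 - (16 * (bb m : ZMod q) ^ 2 + 3) * hi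

theorem mul_conj {R : Type*} [CommRing R] (s : R) (hs : s ^ 2 = 8) (m : ℕ) : (3 + s) ^ m * (3 - s) ^ m = 1 := by
  rw [← mul_pow, show (3 + s) * (3 - s) = 1 by linear_combination (-1 : R) * hs, one_pow]

theorem pow_rank {q t : ℕ} (s : ZMod q) (hs : s ^ 2 = 8) (h : q ∣ bb t) : (3 + s) ^ (2 * t) = 1 := by
  have h0 : (bb t : ZMod q) = 0 := (ZMod.natCast_eq_zero_iff _ q).2 h
  have h1 := pow_add' s hs t
  have h2 := pow_sub' s hs t
  have h3 := mul_conj s hs t
  rw [h0, zero_mul, add_zero] at h1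
  rw [h0, zero_mul, sub_zero] at h2
  rw [two_mul, pow_add, h1]
  rw [h1, h2] at h3
  exact h3

/-- the norm of `(3 + √8)^(2 a) (-2)^b - 1` -/
def G (a b : ℕ) : ℤ := 4 ^ b - 2 * (-2) ^ b * dd (2 * a) + 1

theorem G_ne {a b : ℕ} (h : a ≠ 0 ∨ b ≠ 0) : G a b ≠ 0 := by
  by_cases hb : b = 0
  · subst hb
    have ha : a ≠ 0 := by tauto
    have h1 := three_le (2 * a)
    have h2 : 3 ^ 1 ≤ 3 ^ (2 * a) := Nat.pow_le_pow_right (by norm_num) (by omega)
    have h3 : (3 : ℤ) ≤ dd (2 * a) := by exact_mod_cast (by simpa using h2.trans h1 : 3 ≤ dd (2 * a))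
    unfold G
    simp only [pow_zero]
    omega
  · obtain ⟨c, rfl⟩ := Nat.exists_eq_succ_of_ne_zero hb
    unfold G
    intro h0
    have h1 : (4 : ℤ) ^ (c + 1) - 2 * (-2) ^ (c + 1) * dd (2 * a) + 1 =
      2 * (2 * 4 ^ c - (-2) ^ (c + 1) * dd (2 * a)) + 1 := by ring
    rw [Nat.succ_eq_add_one, h1] at h0
    omega

theorem G_le {a b T : ℕ} (ha : a < T) (hb : b < T) : Real.log |(G a b : ℝ)| ≤ 5 * T := by
  obtain ⟨U, rfl⟩ := Nat.exists_eq_add_of_lt (lt_of_le_of_lt (Nat.zero_le _) ha)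
  rw [zero_add] at *
  by_cases h0 : G a b = 0
  · rw [h0]
    simp
    positivity
  have h1 : |(G a b : ℝ)| ≤ 4 * 144 ^ U := by
    have e1 : ((dd (2 * a) : ℕ) : ℝ) ≤ 36 ^ a := by
      have := (le_six (2 * a)).1
      rw [pow_mul] at this
      exact_mod_cast this
    have e2 : (36 : ℝ) ^ a ≤ 36 ^ U := pow_le_pow_right₀ (by norm_num) (by omega)
    have e3 : (4 : ℝ) ^ b ≤ 4 ^ U := pow_le_pow_right₀ (by norm_num) (by omega)
    have e4 : (2 : ℝ) ^ b ≤ 2 ^ U := pow_le_pow_right₀ (by norm_num) (by omega)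
    have e5 : (2 : ℝ) ^ U ≤ 4 ^ U := pow_le_pow_left₀ (by norm_num) (by norm_num) _
    have e6 : (1 : ℝ) ≤ 36 ^ U := one_le_pow₀ (by norm_num)
    have e7 : (1 : ℝ) ≤ 4 ^ U := one_le_pow₀ (by norm_num)
    have e8 : (144 : ℝ) ^ U = 4 ^ U * 36 ^ U := by rw [← mul_pow]; norm_num
    have e9 : |(G a b : ℝ)| ≤ 4 ^ b + 2 * 2 ^ b * dd (2 * a) + 1 := by
      unfold G
      push_cast
      have f1 : |(-2 : ℝ) ^ b| = 2 ^ b := by rw [abs_pow]; norm_num
      refine (abs_add_le _ _).trans ?_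
      refine add_le_add ((abs_sub _ _).trans ?_) (by norm_num)
      rw [abs_mul, abs_mul, f1, abs_of_nonneg (by positivity : (0 : ℝ) ≤ 4 ^ b),
        abs_of_nonneg (by positivity : (0 : ℝ) ≤ (dd (2 * a) : ℝ))]
      norm_num
    have e10 : (2 : ℝ) ^ b * dd (2 * a) ≤ 4 ^ U * 36 ^ U :=
      mul_le_mul (e4.trans e5) (e1.trans e2) (Nat.cast_nonneg _) (by positivity)
    have e11 : (4 : ℝ) ^ b ≤ 4 ^ U * 36 ^ U := by nlinarith
    have e12 : (1 : ℝ) ≤ 4 ^ U * 36 ^ U := by nlinarith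
    rw [e8]
    nlinarith
  have h2 : (0 : ℝ) < |(G a b : ℝ)| := abs_pos.2 (by exact_mod_cast h0)
  have h5 : Real.log 4 ≤ 1.4 := log_four
  have h6 : Real.log 144 ≤ 5 := by
    have h7 : Real.log 144 = 2 * Real.log 6 + Real.log 4 := by
      rw [show (144 : ℝ) = 6 ^ 2 * 4 by norm_num, Real.log_mul (by norm_num) (by norm_num), Real.log_pow]
      norm_num
    have h8 : Real.log 6 ≤ 1.8 := by
      rw [Real.log_le_iff_le_exp (by norm_num)]
      have h9 := Real.exp_one_gt_d9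
      have h10 : Real.exp 1.8 = Real.exp 1 * Real.exp 0.8 := by
        rw [← Real.exp_add]
        norm_num
      have h11 : Real.exp (0.8 : ℝ) ^ 5 = Real.exp 1 ^ 4 := by
        rw [← Real.exp_nat_mul, ← Real.exp_nat_mul]
        norm_num
      have h12 : (2.21 : ℝ) ≤ Real.exp 0.8 := by
        by_contra hc
        push Not at hc
        have h13 : Real.exp (0.8 : ℝ) ^ 5 < 2.21 ^ 5 := pow_lt_pow_left₀ hc (Real.exp_pos _).le (by norm_num)
        have h14 : (2.718 : ℝ) ^ 4 ≤ Real.exp 1 ^ 4 := pow_le_pow_left₀ (by norm_num) (by linarith) _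
        rw [h11] at h13
        norm_num at h13 h14
        linarith
      rw [h10]
      nlinarith
    rw [h7]
    linarith
  refine (Real.log_le_log h2 h1).trans ?_
  rw [Real.log_mul (by norm_num) (by positivity), Real.log_pow]
  push_cast
  have : (0 : ℝ) ≤ U := Nat.cast_nonneg U
  nlinarith

theorem coll_aux {q : ℕ} (s : ZMod q) (hs : s ^ 2 = 8) {m : ℕ} (hm : (3 + s) ^ (2 * m) = -2) {a b A B : ℕ}
    (h : (3 + s) ^ (2 * a) * (-2) ^ b = (3 + s) ^ (2 * (a + A)) * (-2) ^ (b + B) ∨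
      (3 + s) ^ (2 * a) * (-2) ^ (b + B) = (3 + s) ^ (2 * (a + A)) * (-2) ^ b) :
    (q : ℤ) ∣ G A B := by
  rw [← ZMod.intCast_zmod_eq_zero_iff_dvd]
  unfold G
  push_cast
  have hA := pow_add' s hs (2 * A)
  have hA' := pow_sub' s hs (2 * A)
  have h1 := mul_conj s hs (2 * A)
  have h2 := mul_conj s hs (2 * a)
  have ht : (-2 : ZMod q) ^ b * ((3 - s) ^ (2 * m)) ^ b = 1 := by
    rw [← mul_pow, ← hm, mul_conj s hs (2 * m), one_pow]
  have e4 : (4 : ZMod q) ^ B = (-2) ^ B * (-2) ^ B := by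
    rw [← mul_pow]
    norm_num
  have hd : 2 * (dd (2 * A) : ZMod q) = (3 + s) ^ (2 * A) + (3 - s) ^ (2 * A) := by
    rw [hA, hA']
    ring
  have hg : (4 : ZMod q) ^ B - 2 * (-2) ^ B * dd (2 * A) + 1 =
      (-2) ^ B * (-2) ^ B - (-2) ^ B * ((3 + s) ^ (2 * A) + (3 - s) ^ (2 * A)) + 1 := by
    rw [e4, ← hd]
    ring
  rw [hg]
  have e5 : (3 + s) ^ (2 * (a + A)) = (3 + s) ^ (2 * a) * (3 + s) ^ (2 * A) := by rw [mul_add, pow_add]
  have e6 : (-2 : ZMod q) ^ (b + B) = (-2) ^ b * (-2) ^ B := pow_add _ _ _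
  rw [e5, e6] at h
  clear hg hd e4 hA hA' e5 e6 hm
  generalize (3 + s) ^ (2 * A) = x at *
  generalize (3 - s) ^ (2 * A) = x' at *
  generalize (3 + s) ^ (2 * a) = P at *
  generalize (3 - s) ^ (2 * a) = P' at *
  generalize ((3 - s) ^ (2 * m)) ^ b = t' at *
  generalize (-2 : ZMod q) ^ b = t at *
  generalize (-2 : ZMod q) ^ B = c at *
  rcases h with h | h
  · have hxc : x * c = 1 := by
      linear_combination (-(P' * t')) * h + ((1 - x * c) * (t * t')) * h2 + (1 - x * c) * ht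
    linear_combination (c * x' - 1) * hxc - c ^ 2 * h1
  · have hcx : c = x := by
      linear_combination (P' * t') * h - ((c - x) * (t * t')) * h2 - (c - x) * ht
    linear_combination (c - x') * hcx - h1

/-- the differences of two coordinates -/
def dif (a b : ℕ) : ℕ := (a - b) + (b - a)

theorem dif_comm (a b : ℕ) : dif a b = dif b a := by unfold dif; omega

theorem coll {q : ℕ} (s : ZMod q) (hs : s ^ 2 = 8) {m : ℕ} (hm : (3 + s) ^ (2 * m) = -2) (a b a' b' : ℕ)
    (h : (3 + s) ^ (2 * a) * (-2) ^ b = (3 + s) ^ (2 * a') * (-2) ^ b') :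
    (q : ℤ) ∣ G (dif a a') (dif b b') := by
  rcases le_total a a' with ha | ha
  · obtain ⟨A, rfl⟩ := Nat.exists_eq_add_of_le ha
    have e1 : dif a (a + A) = A := by unfold dif; omega
    rw [e1]
    rcases le_total b b' with hb | hb
    · obtain ⟨B, rfl⟩ := Nat.exists_eq_add_of_le hb
      have e2 : dif b (b + B) = B := by unfold dif; omega
      rw [e2]
      exact coll_aux s hs hm (Or.inl h)
    · obtain ⟨B, rfl⟩ := Nat.exists_eq_add_of_le hb
      have e2 : dif (b' + B) b' = B := by unfold dif; omega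
      rw [e2]
      exact coll_aux s hs hm (Or.inr h)
  · obtain ⟨A, rfl⟩ := Nat.exists_eq_add_of_le ha
    have e1 : dif (a' + A) a' = A := by unfold dif; omega
    rw [e1]
    rcases le_total b b' with hb | hb
    · obtain ⟨B, rfl⟩ := Nat.exists_eq_add_of_le hb
      have e2 : dif b (b + B) = B := by unfold dif; omega
      rw [e2]
      exact coll_aux s hs hm (Or.inr h.symm)
    · obtain ⟨B, rfl⟩ := Nat.exists_eq_add_of_le hb
      have e2 : dif (b' + B) b' = B := by unfold dif; omega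
      rw [e2]
      exact coll_aux s hs hm (Or.inl h.symm)

/-- the number of coincidences of a function on a finite set is large if it has few values -/
theorem collisions {ι β : Type*} [DecidableEq β] (S : Finset ι) (f : ι → β) (I : Finset β)
    (hf : ∀ i ∈ S, f i ∈ I) :
    (#S : ℝ) ^ 2 ≤ #I * #((S ×ˢ S).filter fun p => f p.1 = f p.2) := by
  have h1 : (#S : ℝ) = ∑ y ∈ I, (#(S.filter fun i => f i = y) : ℝ) := by
    exact_mod_cast card_eq_sum_card_fiberwise hf
  have h2 : (#((S ×ˢ S).filter fun p => f p.1 = f p.2) : ℝ) = ∑ y ∈ I, (#(S.filter fun i => f i = y) : ℝ) ^ 2 := by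
    have h3 : #((S ×ˢ S).filter fun p => f p.1 = f p.2) =
        ∑ y ∈ I, #(((S ×ˢ S).filter fun p => f p.1 = f p.2).filter fun p => f p.1 = y) := by
      refine card_eq_sum_card_fiberwise fun p hp => ?_
      rw [mem_coe, mem_filter, mem_product] at hp
      exact hf _ hp.1.1
    rw [h3]
    push_cast
    refine sum_congr rfl fun y _ => ?_
    have h4 : (((S ×ˢ S).filter fun p => f p.1 = f p.2).filter fun p => f p.1 = y) =
        (S.filter fun i => f i = y) ×ˢ (S.filter fun i => f i = y) := by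
      ext p
      simp only [mem_filter, mem_product]
      constructor
      · rintro ⟨⟨⟨h5, h6⟩, h7⟩, h8⟩
        exact ⟨⟨h5, h8⟩, h6, h7 ▸ h8⟩
      · rintro ⟨⟨h5, h8⟩, h6, h9⟩
        exact ⟨⟨⟨h5, h6⟩, h8.trans h9.symm⟩, h8⟩
    rw [h4, card_product]
    push_cast
    ring
  rw [h1, h2]
  exact sq_sum_le_card_mul_sum_sq

/-- the box of the exponents -/
def box (T : ℕ) : Finset (ℕ × ℕ) := range T ×ˢ range T

/-- the pairs of different exponents whose difference gives a relation modulo `q` -/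
def off (T q : ℕ) : Finset ((ℕ × ℕ) × (ℕ × ℕ)) :=
  (box T ×ˢ box T).filter fun p => p.1 ≠ p.2 ∧ (q : ℤ) ∣ G (dif p.1.1 p.2.1) (dif p.1.2 p.2.2)

theorem inv_rank_le {q m T : ℕ} (h3 : Nat.Coprime 3 q) (h : q ∣ N m) (hz : 0 < z q) (hT : 2 * z q ≤ T ^ 2) :
    (T : ℝ) ^ 4 ≤ 2 * z q * #(off T q) := by
  obtain ⟨s, hs, hm⟩ := exists_root h3 h
  set f : ℕ × ℕ → ZMod q := fun p => (3 + s) ^ (2 * p.1) * (-2) ^ p.2 with hf
  set I : Finset (ZMod q) := (range (z q)).image fun j => (3 + s) ^ (2 * j) with hI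
  have hy : ((3 + s) ^ 2) ^ z q = 1 := by
    rw [← pow_mul]
    exact pow_rank s hs (z_spec hz.ne')
  have hfI : ∀ p ∈ box T, f p ∈ I := by
    intro p _
    rw [hI, mem_image]
    refine ⟨(p.1 + m * p.2) % z q, mem_range.2 (Nat.mod_lt _ hz), ?_⟩
    have e1 : (3 + s) ^ (2 * ((p.1 + m * p.2) % z q)) = ((3 + s) ^ 2) ^ (p.1 + m * p.2) := by
      rw [pow_mul]
      exact (pow_eq_pow_mod _ hy).symm
    have e2 : ((3 + s) ^ 2) ^ m = -2 := by rw [← pow_mul, hm]
    simp only [hf]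
    rw [e1, pow_add, pow_mul _ m, e2, ← pow_mul]
  have h1 := collisions (box T) f I hfI
  have h2 : #I ≤ z q := card_image_le.trans (by rw [card_range])
  have hbox : #(box T) = T * T := by rw [box, card_product, card_range]
  have h4 : #((box T ×ˢ box T).filter fun p => f p.1 = f p.2) ≤ #(off T q) + T * T := by
    have h5 : ((box T ×ˢ box T).filter fun p => f p.1 = f p.2) ⊆ off T q ∪ (box T).diag := by
      intro p hp
      rw [mem_filter] at hp
      rw [mem_union]
      by_cases hpp : p.1 = p.2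
      · right
        rw [mem_diag]
        exact ⟨(mem_product.1 hp.1).1, hpp⟩
      · left
        rw [off, mem_filter]
        exact ⟨hp.1, hpp, coll s hs hm _ _ _ _ hp.2⟩
    refine (card_le_card h5).trans ((card_union_le _ _).trans ?_)
    rw [diag_card, hbox]
  have h6 : (#((box T ×ˢ box T).filter fun p => f p.1 = f p.2) : ℝ) ≤ #(off T q) + (T : ℝ) * T := by
    exact_mod_cast h4
  have h7 : (#I : ℝ) ≤ z q := by exact_mod_cast h2
  have h8 : (2 : ℝ) * z q ≤ (T : ℝ) ^ 2 := by exact_mod_cast hT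
  rw [hbox] at h1
  push_cast at h1
  have h9 : (#I : ℝ) * #((box T ×ˢ box T).filter fun p => f p.1 = f p.2) ≤ z q * (#(off T q) + (T : ℝ) * T) :=
    mul_le_mul h7 h6 (Nat.cast_nonneg _) (Nat.cast_nonneg _)
  have h10 : (2 : ℝ) * z q * ((T : ℝ) * T) ≤ (T : ℝ) ^ 2 * ((T : ℝ) * T) :=
    mul_le_mul_of_nonneg_right h8 (by positivity)
  nlinarith

/-- the sum over the moduli which divide at least two values -/
noncomputable def W (X d : ℕ) : ℝ := if 2 ≤ #(S X d) then Λ d * #(S X d) else 0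

theorem W_nonneg (X d : ℕ) : 0 ≤ W X d := by
  unfold W
  split_ifs
  · exact mul_nonneg vonMangoldt_nonneg (Nat.cast_nonneg _)
  · exact le_rfl

theorem W_le (X T d : ℕ) (hT0 : 0 < T) (hT : 4 * X ≤ T ^ 2) : W X d ≤ 12 * X / (T : ℝ) ^ 4 * (Λ d * #(off T d)) +
    if d = 3 ∨ d = 9 then 2 * (X : ℝ) else 0 := by
  have h0 : 0 ≤ Λ d := vonMangoldt_nonneg
  have hT1 : (0 : ℝ) < T := by exact_mod_cast hT0
  have hif : (0 : ℝ) ≤ if d = 3 ∨ d = 9 then 2 * (X : ℝ) else 0 := by
    split_ifs <;> positivity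
  have hpos : 0 ≤ 12 * X / (T : ℝ) ^ 4 * (Λ d * #(off T d)) := by positivity
  unfold W
  split_ifs with h2 h39 h39
  · have hl3 : Real.log 3 ≤ 2 := (Real.log_le_log (by norm_num) (by norm_num)).trans log_six
    have hΛ : Λ d = Real.log 3 := by
      rcases h39 with rfl | rfl
      · exact vonMangoldt_apply_prime Nat.prime_three
      · rw [show 9 = 3 ^ 2 by norm_num, vonMangoldt_apply_pow two_ne_zero,
          vonMangoldt_apply_prime Nat.prime_three]
        norm_num
    have h3 : (#(S X d) : ℝ) ≤ X := by exact_mod_cast card_S_le X _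
    have h4 : Λ d * #(S X d) ≤ 2 * X := by
      rw [hΛ]
      exact mul_le_mul hl3 h3 (Nat.cast_nonneg _) (by norm_num)
    linarith
  · rw [add_zero]
    by_cases h : Λ d = 0
    · rw [h]
      simp
    have hpp : IsPrimePow d := by
      by_contra hc
      exact h ((vonMangoldt_eq_zero_iff).2 hc)
    obtain ⟨q, k, hq, hk, rfl⟩ := (isPrimePow_nat_iff _).1 hpp
    have h3 : q ≠ 3 := by
      rintro rfl
      rcases (by omega : k = 1 ∨ k = 2 ∨ 3 ≤ k) with rfl | rfl | hk3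
      · exact h39 (by norm_num)
      · exact h39 (by norm_num)
      · have h1 : S X (3 ^ k) = ∅ := by
          rw [S, filter_eq_empty_iff]
          intro m _ hm
          exact not_dvd_27 m ((pow_dvd_pow 3 hk3).trans hm)
        rw [h1, card_empty] at h2
        omega
    have hcop : Nat.Coprime 3 (q ^ k) :=
      Nat.Coprime.pow_right k ((Nat.coprime_primes Nat.prime_three hq).2 (Ne.symm h3))
    obtain ⟨m, hm, n, hn, hmn⟩ := one_lt_card.1 (lt_of_lt_of_le one_lt_two h2)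
    have key : ∀ m n : ℕ, m ∈ S X (q ^ k) → n ∈ S X (q ^ k) → n < m → 0 < z (q ^ k) ∧ z (q ^ k) ≤ 2 * X := by
      intro m n hm hn hmn
      rw [S, mem_filter, mem_Icc] at hm hn
      rcases dvd_or hq h3 hk hmn.le hm.2 hn.2 with h4 | h4
      · exact ⟨z_pos (by omega) h4, (Nat.le_of_dvd (by omega) (z_dvd _ h4)).trans (by omega)⟩
      · exact ⟨z_pos (by omega) h4, (Nat.le_of_dvd (by omega) (z_dvd _ h4)).trans (by omega)⟩
    have hz : 0 < z (q ^ k) ∧ z (q ^ k) ≤ 2 * X := by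
      rcases lt_or_gt_of_ne hmn with h4 | h4
      · exact key n m hn hm h4
      · exact key m n hm hn h4
    have hdvd : q ^ k ∣ N m := by
      rw [S, mem_filter] at hm
      exact hm.2
    have h5 := inv_rank_le (T := T) hcop hdvd hz.1 (by omega)
    have h6 := card_S hq h3 hk X
    have hzR : (0 : ℝ) < z (q ^ k) := by exact_mod_cast hz.1
    have hzX : (z (q ^ k) : ℝ) ≤ 2 * X := by exact_mod_cast hz.2
    have h7 : (#(S X (q ^ k)) : ℝ) ≤ 6 * X / z (q ^ k) := by
      have h8 : ((X / z (q ^ k) : ℕ) : ℝ) ≤ X / (z (q ^ k) : ℝ) := Nat.cast_div_le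
      have h9 : (#(S X (q ^ k)) : ℝ) ≤ 2 * (((X / z (q ^ k) : ℕ) : ℝ) + 1) := by exact_mod_cast h6
      have h10 : (1 : ℝ) ≤ 2 * (X / (z (q ^ k) : ℝ)) := by
        rw [← mul_div_assoc, one_le_div hzR]
        exact hzX
      have h11 : 6 * (X : ℝ) / z (q ^ k) = 6 * (X / (z (q ^ k) : ℝ)) := by ring
      rw [h11]
      linarith
    have h8 : (#(S X (q ^ k)) : ℝ) ≤ 12 * X / (T : ℝ) ^ 4 * #(off T (q ^ k)) := by
      refine h7.trans ?_
      rw [div_mul_eq_mul_div, div_le_div_iff₀ hzR (by positivity)]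
      have hX : (0 : ℝ) ≤ 6 * X := by positivity
      have := mul_le_mul_of_nonneg_left h5 hX
      linarith
    have h9 := mul_le_mul_of_nonneg_left h8 h0
    linarith
  · linarith
  · linarith

end Pool.Agent.L5helper52.LC
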