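import Pool.Agent.L5helper52.LC.A

/-!
# The numbers `N_m = 8 d_m ^ 2 + 1`: common divisors and the least common multiple
-/

set_option autoImplicit false

namespace Pool.Agent.L5helper52.LC

open Finset Pool.Agent.R803.PV Pool.Agent.L5helper73.LD ArithmeticFunction

theorem sum_off (T Q : ℕ) : ∑ d ∈ Icc 1 Q, Λ d * #(off T d) ≤ (T : ℝ) ^ 4 * (5 * T) := by
  have h1 : ∀ d, Λ d * (#(off T d) : ℝ) = ∑ p ∈ (box T ×ˢ box T).filter (fun p => p.1 ≠ p.2),
      if (d : ℤ) ∣ G (dif p.1.1 p.2.1) (dif p.1.2 p.2.2) then Λ d else 0 := by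
    intro d
    rw [← sum_filter, filter_filter, sum_const, nsmul_eq_mul, mul_comm]
    rfl
  simp_rw [h1]
  rw [sum_comm]
  have h2 : ∀ p ∈ (box T ×ˢ box T).filter (fun p => p.1 ≠ p.2), ∑ d ∈ Icc 1 Q,
      (if (d : ℤ) ∣ G (dif p.1.1 p.2.1) (dif p.1.2 p.2.2) then Λ d else 0) ≤ 5 * (T : ℝ) := by
    intro p hp
    rw [← sum_filter]
    rw [mem_filter, mem_product, box, mem_product, mem_product, mem_range, mem_range, mem_range, mem_range] at hp
    have hG : G (dif p.1.1 p.2.1) (dif p.1.2 p.2.2) ≠ 0 := by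
      refine G_ne ?_
      by_contra hc
      push Not at hc
      refine hp.2 (Prod.ext ?_ ?_)
      · have := hc.1
        unfold dif at this
        omega
      · have := hc.2
        unfold dif at this
        omega
    calc ∑ d ∈ (Icc 1 Q).filter (fun d : ℕ => (d : ℤ) ∣ G (dif p.1.1 p.2.1) (dif p.1.2 p.2.2)), Λ d
        ≤ ∑ d ∈ (G (dif p.1.1 p.2.1) (dif p.1.2 p.2.2)).natAbs.divisors, Λ d := by
          refine sum_le_sum_of_subset_of_nonneg (fun d hd => ?_) fun _ _ _ => vonMangoldt_nonneg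
          rw [mem_filter] at hd
          rw [Nat.mem_divisors]
          exact ⟨Int.natCast_dvd.1 hd.2, Int.natAbs_ne_zero.2 hG⟩
      _ = Real.log (G (dif p.1.1 p.2.1) (dif p.1.2 p.2.2)).natAbs := vonMangoldt_sum
      _ = Real.log |(G (dif p.1.1 p.2.1) (dif p.1.2 p.2.2) : ℝ)| := by rw [Nat.cast_natAbs, Int.cast_abs]
      _ ≤ 5 * T := G_le (by unfold dif; omega) (by unfold dif; omega)
  refine (sum_le_sum h2).trans ?_
  rw [sum_const, nsmul_eq_mul]
  have h3 : #((box T ×ˢ box T).filter (fun p => p.1 ≠ p.2)) ≤ T ^ 4 := by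
    refine (card_filter_le _ _).trans ?_
    rw [card_product, box, card_product, card_range]
    exact le_of_eq (by ring)
  have h4 : (#((box T ×ˢ box T).filter (fun p => p.1 ≠ p.2)) : ℝ) ≤ (T : ℝ) ^ 4 := by exact_mod_cast h3
  exact mul_le_mul_of_nonneg_right h4 (by positivity)

theorem sum_W (X Q : ℕ) (hX : 1 ≤ X) : ∑ d ∈ Icc 1 Q, W X d ≤ 244 * (X * √X) := by
  set T := 2 * (Nat.sqrt X + 1) with hTdef
  have hT : 4 * X ≤ T ^ 2 := by
    have := (Nat.lt_succ_sqrt' X).le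
    rw [Nat.succ_eq_add_one] at this
    rw [hTdef, mul_pow]
    omega
  have hT0 : 0 < T := by omega
  have hTR : (0 : ℝ) < T := by exact_mod_cast hT0
  have hs1 : (1 : ℝ) ≤ √X := by
    rw [Real.one_le_sqrt]
    exact_mod_cast hX
  have hs : (T : ℝ) ≤ 4 * √X := by
    have h1 : ((Nat.sqrt X : ℕ) : ℝ) ≤ √X := Real.nat_sqrt_le_real_sqrt
    rw [hTdef]
    push_cast
    linarith
  refine (sum_le_sum fun d _ => W_le X T d hT0 hT).trans ?_
  rw [sum_add_distrib, ← mul_sum]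
  have h1 := sum_off T Q
  have h2 : 12 * X / (T : ℝ) ^ 4 * ∑ d ∈ Icc 1 Q, Λ d * #(off T d) ≤ 60 * X * T := by
    have h3 : 12 * X / (T : ℝ) ^ 4 * ∑ d ∈ Icc 1 Q, Λ d * #(off T d) ≤
        12 * X / (T : ℝ) ^ 4 * ((T : ℝ) ^ 4 * (5 * T)) := mul_le_mul_of_nonneg_left h1 (by positivity)
    have h4 : 12 * X / (T : ℝ) ^ 4 * ((T : ℝ) ^ 4 * (5 * T)) = 60 * X * T := by
      field_simp
      ring
    linarith
  have h3 : ∑ d ∈ Icc 1 Q, (if d = 3 ∨ d = 9 then 2 * (X : ℝ) else 0) ≤ 4 * X := by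
    rw [← sum_filter, sum_const, nsmul_eq_mul]
    have h4 : #((Icc 1 Q).filter fun d => d = 3 ∨ d = 9) ≤ 2 := by
      refine (card_le_card (t := {3, 9}) fun d hd => ?_).trans (card_le_two)
      rw [mem_filter] at hd
      rw [mem_insert, mem_singleton]
      exact hd.2
    have h5 : (#((Icc 1 Q).filter fun d => d = 3 ∨ d = 9) : ℝ) ≤ 2 := by exact_mod_cast h4
    have h6 : (0 : ℝ) ≤ X := Nat.cast_nonneg X
    nlinarith
  have h6 : (0 : ℝ) ≤ X := Nat.cast_nonneg X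
  have h7 : (X : ℝ) ≤ X * √X := le_mul_of_one_le_right h6 hs1
  have h8 : 60 * (X : ℝ) * T ≤ 60 * X * (4 * √X) := mul_le_mul_of_nonneg_left hs (by positivity)
  linarith

theorem N_pos (m : ℕ) : 0 < N m := by rw [N_dd]; positivity

/-- the sum of all values -/
def tot (X : ℕ) : ℕ := ∑ m ∈ Icc 1 X, N m

theorem N_le_tot {X m : ℕ} (hm : m ∈ Icc 1 X) : N m ≤ tot X :=
  single_le_sum (f := N) (fun _ _ => Nat.zero_le _) hm

/-- the common part of `N m` and the other values -/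
def com (X m : ℕ) : ℕ := Nat.gcd (N m) (((Icc 1 X).erase m).lcm N)

theorem log_com_le {X m : ℕ} (hm : m ∈ Icc 1 X) : Real.log (com X m) ≤
    ∑ d ∈ Icc 1 (tot X), if d ∣ N m ∧ 2 ≤ #(S X d) then Λ d else 0 := by
  rw [← vonMangoldt_sum, ← sum_filter, ← sum_filter_ne_zero]
  refine sum_le_sum_of_subset_of_nonneg (fun d hd => ?_) fun _ _ _ => vonMangoldt_nonneg
  rw [mem_filter, Nat.mem_divisors] at hd
  obtain ⟨⟨hd1, -⟩, hd2⟩ := hd
  have hpp : IsPrimePow d := by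
    by_contra hc
    exact hd2 ((vonMangoldt_eq_zero_iff).2 hc)
  obtain ⟨q, k, hq, hk, rfl⟩ := (isPrimePow_nat_iff _).1 hpp
  have h1 : q ^ k ∣ N m := hd1.trans (Nat.gcd_dvd_left _ _)
  have h2 : q ^ k ∣ ((Icc 1 X).erase m).lcm N := hd1.trans (Nat.gcd_dvd_right _ _)
  have h3 : ((Icc 1 X).erase m).lcm N = (((Icc 1 X).erase m).image N).lcm id := by
    rw [Finset.lcm_image]
    rfl
  rw [h3] at h2
  obtain ⟨e, he, hqe⟩ := pp_dvd_lcm hq hk _ (fun e he => by
    rw [mem_image] at he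
    obtain ⟨n, -, rfl⟩ := he
    exact (N_pos n).ne') h2
  rw [mem_image] at he
  obtain ⟨n, hn, rfl⟩ := he
  rw [mem_erase] at hn
  rw [mem_filter, mem_Icc]
  refine ⟨⟨Nat.one_le_pow _ _ hq.pos, (Nat.le_of_dvd (N_pos m) h1).trans (N_le_tot hm)⟩, h1, ?_⟩
  refine one_lt_card.2 ⟨m, ?_, n, ?_, hn.1.symm⟩
  · rw [S, mem_filter]
    exact ⟨hm, h1⟩
  · rw [S, mem_filter]
    exact ⟨hn.2, hqe⟩

theorem sum_com (X : ℕ) (hX : 1 ≤ X) : ∑ m ∈ Icc 1 X, Real.log (com X m) ≤ 244 * (X * √X) := by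
  refine (sum_le_sum fun m hm => log_com_le hm).trans ?_
  rw [sum_comm]
  refine le_trans (le_of_eq (sum_congr rfl fun d _ => ?_)) (sum_W X (tot X) hX)
  unfold W
  by_cases h : 2 ≤ #(S X d)
  · simp only [h, and_true, if_true]
    rw [← sum_filter, sum_const, nsmul_eq_mul, mul_comm]
    rfl
  · simp only [h, and_false, if_false, sum_const_zero]

theorem sum_log_N (X : ℕ) : ∑ m ∈ Icc 1 X, Real.log (N m) = ∑ d ∈ Icc 1 (tot X), Λ d * #(S X d) := by
  have h1 : ∀ m ∈ Icc 1 X, Real.log (N m) = ∑ d ∈ Icc 1 (tot X), if d ∣ N m then Λ d else 0 := by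
    intro m hm
    rw [← vonMangoldt_sum, ← sum_filter]
    refine sum_congr ?_ fun _ _ => rfl
    ext d
    rw [Nat.mem_divisors, mem_filter, mem_Icc]
    constructor
    · rintro ⟨h, -⟩
      exact ⟨⟨Nat.pos_of_dvd_of_pos h (N_pos m), (Nat.le_of_dvd (N_pos m) h).trans (N_le_tot hm)⟩, h⟩
    · rintro ⟨-, h⟩
      exact ⟨h, (N_pos m).ne'⟩
  rw [sum_congr rfl h1, sum_comm]
  refine sum_congr rfl fun d _ => ?_
  rw [← sum_filter, sum_const, nsmul_eq_mul, mul_comm]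
  rfl

theorem lcm_ne (X : ℕ) : (Icc 1 X).lcm N ≠ 0 := by
  rw [Ne, Finset.lcm_eq_zero_iff]
  rintro ⟨m, -, hm⟩
  exact (N_pos m).ne' hm

theorem log_lcm_ge (X : ℕ) (hX : 1 ≤ X) :
    ∑ m ∈ Icc 1 X, Real.log (N m) - 244 * (X * √X) ≤ Real.log (((Icc 1 X).lcm N : ℕ) : ℝ) := by
  have h1 : ∑ d ∈ Icc 1 (tot X), (Λ d * #(S X d) - W X d) ≤ Real.log (((Icc 1 X).lcm N : ℕ) : ℝ) := by
    rw [← vonMangoldt_sum]
    have h2 : ∑ d ∈ Icc 1 (tot X), (Λ d * #(S X d) - W X d) ≤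
        ∑ d ∈ (Icc 1 (tot X)).filter (fun d => d ∈ ((Icc 1 X).lcm N).divisors), Λ d := by
      rw [sum_filter]
      refine sum_le_sum fun d _ => ?_
      have h0 : 0 ≤ Λ d := vonMangoldt_nonneg
      unfold W
      by_cases h : 2 ≤ #(S X d)
      · rw [if_pos h, sub_self]
        split_ifs <;> [exact h0; exact le_rfl]
      · rw [if_neg h, sub_zero]
        rcases (S X d).eq_empty_or_nonempty with h3 | h3
        · rw [h3, card_empty, Nat.cast_zero, mul_zero]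
          split_ifs <;> [exact h0; exact le_rfl]
        · have h4 : #(S X d) = 1 := by
            have := card_pos.2 h3
            omega
          obtain ⟨m, hm⟩ := h3
          rw [S, mem_filter] at hm
          rw [if_pos (Nat.mem_divisors.2 ⟨hm.2.trans (dvd_lcm hm.1), lcm_ne X⟩), h4, Nat.cast_one, mul_one]
    refine h2.trans (sum_le_sum_of_subset_of_nonneg (fun d hd => (mem_filter.1 hd).2) fun _ _ _ => vonMangoldt_nonneg)
  rw [sum_sub_distrib, ← sum_log_N] at h1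
  have := sum_W X (tot X) hX
  linarith

theorem log_lcm_le (X : ℕ) : Real.log (((Icc 1 X).lcm N : ℕ) : ℝ) ≤ ∑ m ∈ Icc 1 X, Real.log (N m) := by
  rw [← Real.log_prod (fun m _ => by exact_mod_cast (N_pos m).ne')]
  refine Real.log_le_log (by exact_mod_cast Nat.pos_of_ne_zero (lcm_ne X)) ?_
  rw [← Nat.cast_prod]
  refine Nat.cast_le.2 (Nat.le_of_dvd (prod_pos fun m _ => N_pos m) ?_)
  exact Finset.lcm_dvd fun m hm => dvd_prod_of_mem N hm

end Pool.Agent.L5helper52.LC
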