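import Pool.Agent.L5helper52.LC.B

/-!
# The numbers `N_m = 8 d_m ^ 2 + 1`: their size
-/

set_option autoImplicit false

namespace Pool.Agent.L5helper52.LC

open Finset Pool.Agent.R803.PV Pool.Agent.L5helper73.LD ArithmeticFunction

theorem sqrt8_sq : √(8 : ℝ) ^ 2 = 8 := Real.sq_sqrt (by norm_num)

theorem log_v : 0 ≤ Real.log (3 + √8) ∧ Real.log (3 + √8) ≤ 2 := by
  have h0 := Real.sqrt_nonneg 8
  have h1 : √(8 : ℝ) ≤ 3 := by
    rw [Real.sqrt_le_left (by norm_num)]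
    norm_num
  exact ⟨Real.log_nonneg (by linarith), (Real.log_le_log (by linarith) (by linarith)).trans log_six⟩

theorem log_N_bounds (m : ℕ) : 2 * m * Real.log (3 + √8) ≤ Real.log (N m) ∧
    Real.log (N m) ≤ 2 * m * Real.log (3 + √8) + 3 := by
  have h0 := Real.sqrt_nonneg 8
  have h1 : √(8 : ℝ) ≤ 3 := by
    rw [Real.sqrt_le_left (by norm_num)]
    norm_num
  have hv : (0 : ℝ) < 3 + √8 := by linarith
  have ha := pow_add' (√(8 : ℝ)) sqrt8_sq m
  have hb := pow_sub' (√(8 : ℝ)) sqrt8_sq m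
  have hc := mul_conj (√(8 : ℝ)) sqrt8_sq m
  have hp : ((dd m : ℝ)) ^ 2 = 8 * (bb m : ℝ) ^ 2 + 1 := by exact_mod_cast pell' m
  have hN : (N m : ℝ) = 8 * (dd m : ℝ) ^ 2 + 1 := by rw [N_dd]; push_cast; ring
  have hvp : (0 : ℝ) < (3 + √8) ^ m := pow_pos hv m
  have hw0 : (0 : ℝ) ≤ (3 - √8) ^ m := pow_nonneg (by linarith) m
  have hw1 : (3 - √8) ^ m ≤ (1 : ℝ) := by
    refine pow_le_one₀ (by linarith) ?_
    have : (2 : ℝ) ≤ √8 := by
      refine Real.le_sqrt_of_sq_le ?_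
      norm_num
    linarith
  have hv1 : (1 : ℝ) ≤ (3 + √8) ^ m := one_le_pow₀ (by linarith)
  have hd2 : 2 * (dd m : ℝ) = (3 + √8) ^ m + (3 - √8) ^ m := by rw [ha, hb]; ring
  have h3 : ((3 + √8) ^ m) ^ 2 ≤ (N m : ℝ) := by rw [hN]; nlinarith
  have h4 : (N m : ℝ) ≤ 9 * ((3 + √8) ^ m) ^ 2 := by
    rw [hN]
    nlinarith
  have h5 : Real.log (((3 + √8) ^ m) ^ 2) = 2 * m * Real.log (3 + √8) := by
    rw [Real.log_pow, Real.log_pow]
    push_cast
    ring
  have h6 : Real.log 9 ≤ 3 := by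
    rw [Real.log_le_iff_le_exp (by norm_num)]
    have h7 := Real.exp_one_gt_d9
    have h8 : Real.exp 3 = Real.exp 1 * Real.exp 1 * Real.exp 1 := by
      rw [← Real.exp_add, ← Real.exp_add]
      norm_num
    rw [h8]
    have h9 : (2.7 : ℝ) * 2.7 ≤ Real.exp 1 * Real.exp 1 := by nlinarith
    nlinarith
  constructor
  · rw [← h5]
    exact Real.log_le_log (by positivity) h3
  · refine (Real.log_le_log (by exact_mod_cast N_pos m) h4).trans ?_
    rw [Real.log_mul (by norm_num) (by positivity), h5]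
    linarith

theorem sum_id (X : ℕ) : ∑ m ∈ Icc 1 X, (2 * (m : ℝ)) = X * (X + 1) := by
  induction X with
  | zero => simp
  | succ X ih =>
    rw [sum_Icc_succ_top (by omega), ih]
    push_cast
    ring

theorem sum_log_bounds (X : ℕ) : (X : ℝ) ^ 2 * Real.log (3 + √8) ≤ ∑ m ∈ Icc 1 X, Real.log (N m) ∧
    ∑ m ∈ Icc 1 X, Real.log (N m) ≤ (X : ℝ) ^ 2 * Real.log (3 + √8) + 5 * X := by
  have hv := log_v
  have h0 : (0 : ℝ) ≤ X := Nat.cast_nonneg X
  have h1 : ∑ m ∈ Icc 1 X, (2 * (m : ℝ) * Real.log (3 + √8)) = X * (X + 1) * Real.log (3 + √8) := by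
    rw [← sum_mul, sum_id]
  constructor
  · refine le_trans ?_ (sum_le_sum fun m _ => (log_N_bounds m).1)
    rw [h1]
    nlinarith [mul_nonneg h0 hv.1]
  · refine (sum_le_sum fun m _ => (log_N_bounds m).2).trans ?_
    rw [sum_add_distrib, h1, sum_const, Nat.card_Icc, Nat.add_sub_cancel, nsmul_eq_mul]
    have := mul_le_mul_of_nonneg_left hv.2 h0
    nlinarith

theorem log_lcm (X : ℕ) : |Real.log (((Icc 1 X).lcm N : ℕ) : ℝ) - (X : ℝ) ^ 2 * Real.log (3 + √8)| ≤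
    250 * (X * √X) := by
  rcases Nat.eq_zero_or_pos X with rfl | hX
  · simp
  have h0 : (0 : ℝ) ≤ X := Nat.cast_nonneg X
  have hs1 : (1 : ℝ) ≤ √X := by
    rw [Real.one_le_sqrt]
    exact_mod_cast hX
  have h7 : (X : ℝ) ≤ X * √X := le_mul_of_one_le_right h0 hs1
  have h1 := log_lcm_ge X hX
  have h2 := log_lcm_le X
  have h3 := sum_log_bounds X
  rw [abs_le]
  constructor <;> linarith

theorem sum_com' (X : ℕ) : ∑ m ∈ Icc 1 X, Real.log (com X m) ≤ 250 * (X * √X) := by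
  rcases Nat.eq_zero_or_pos X with rfl | hX
  · simp
  have := sum_com X hX
  have h0 : (0 : ℝ) ≤ X * √X := by positivity
  linarith

theorem com_pos (X m : ℕ) : 0 < com X m := Nat.gcd_pos_of_pos_left _ (N_pos m)

theorem few (X : ℕ) (ε : ℝ) (hε : 0 < ε) :
    (#((Icc 1 X).filter fun m => 250 / ε * √X < Real.log (com X m)) : ℝ) ≤ ε * X := by
  rcases Nat.eq_zero_or_pos X with rfl | hX
  · simp
  have hX0 : (0 : ℝ) < √X := Real.sqrt_pos.2 (by exact_mod_cast hX)
  have h1 : (#((Icc 1 X).filter fun m => 250 / ε * √X < Real.log (com X m)) : ℝ) * (250 / ε * √X) ≤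
      ∑ m ∈ (Icc 1 X).filter (fun m => 250 / ε * √X < Real.log (com X m)), Real.log (com X m) := by
    rw [← nsmul_eq_mul]
    exact card_nsmul_le_sum _ _ _ fun m hm => (mem_filter.1 hm).2.le
  have h2 : ∑ m ∈ (Icc 1 X).filter (fun m => 250 / ε * √X < Real.log (com X m)), Real.log (com X m) ≤
      ∑ m ∈ Icc 1 X, Real.log (com X m) :=
    sum_le_sum_of_subset_of_nonneg (filter_subset _ _) fun m _ _ =>
      Real.log_nonneg (by exact_mod_cast com_pos X m)
  have h3 := sum_com' X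
  have h4 : (#((Icc 1 X).filter fun m => 250 / ε * √X < Real.log (com X m)) : ℝ) * (250 / ε * √X) ≤
      ε * X * (250 / ε * √X) := by
    refine (h1.trans (h2.trans h3)).trans (le_of_eq ?_)
    field_simp
  exact le_of_mul_le_mul_right h4 (by positivity)

end Pool.Agent.L5helper52.LC
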