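import Pool.Agent.L5helper52.LC.C

/-!
# The numbers `N_m = 8 d_m ^ 2 + 1`: the greatest common divisor of two values
-/

set_option autoImplicit false

namespace Pool.Agent.L5helper52.LC

open Finset Pool.Agent.R803.PV Pool.Agent.L5helper73.LD ArithmeticFunction

theorem pair_aux (m : ℕ) {l : ℕ} (hl : 0 < l) : ∃ A B : ℕ, (A ≠ 0 ∨ B ≠ 0) ∧ A < Nat.sqrt l + 1 ∧
    B < Nat.sqrt l + 1 ∧ ∀ (q : ℕ) (s : ZMod q), s ^ 2 = 8 → (3 + s) ^ (2 * m) = -2 → (3 + s) ^ (2 * l) = 1 →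
      (q : ℤ) ∣ G A B := by
  obtain ⟨p, hp, p', hp', hne, he⟩ := exists_ne_map_eq_of_card_lt_of_maps_to (s := box (Nat.sqrt l + 1))
    (t := range l) (f := fun p => (p.1 + m * p.2) % l) (by
      rw [box, card_product, card_range, card_range]
      exact Nat.lt_succ_sqrt l) (fun p _ => mem_coe.2 (mem_range.2 (Nat.mod_lt _ hl)))
  rw [box, mem_product, mem_range, mem_range] at hp hp'
  refine ⟨dif p.1 p'.1, dif p.2 p'.2, ?_, by unfold dif; omega, by unfold dif; omega, fun q s hs hm hy => ?_⟩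
  · by_contra hc
    push Not at hc
    refine hne (Prod.ext ?_ ?_)
    · have := hc.1
      unfold dif at this
      omega
    · have := hc.2
      unfold dif at this
      omega
  · refine coll s hs hm _ _ _ _ ?_
    have hy' : ((3 + s) ^ 2) ^ l = 1 := by rw [← pow_mul, hy]
    have e2 : ((3 + s) ^ 2) ^ m = -2 := by rw [← pow_mul, hm]
    have key : ∀ a b : ℕ, (3 + s) ^ (2 * a) * (-2) ^ b = ((3 + s) ^ 2) ^ ((a + m * b) % l) := by
      intro a b
      rw [← pow_eq_pow_mod _ hy', pow_add, pow_mul _ m, e2, ← pow_mul]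
    have he' : (p.1 + m * p.2) % l = (p'.1 + m * p'.2) % l := he
    rw [key, key, he']

theorem gcd_dvd {m n A B A' B' : ℕ} (hnm : n < m)
    (h1 : ∀ (q : ℕ) (s : ZMod q), s ^ 2 = 8 → (3 + s) ^ (2 * m) = -2 → (3 + s) ^ (2 * (m - n)) = 1 →
      (q : ℤ) ∣ G A B)
    (h2 : ∀ (q : ℕ) (s : ZMod q), s ^ 2 = 8 → (3 + s) ^ (2 * m) = -2 → (3 + s) ^ (2 * (m + n)) = 1 →
      (q : ℤ) ∣ G A' B') : Nat.gcd (N m) (N n) ∣ 9 * ((G A B).natAbs * (G A' B').natAbs) := by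
  rw [Nat.dvd_iff_prime_pow_dvd_dvd]
  intro q k hq hk
  have hm := hk.trans (Nat.gcd_dvd_left _ _)
  have hn := hk.trans (Nat.gcd_dvd_right _ _)
  rcases Nat.eq_zero_or_pos k with rfl | hk0
  · rw [pow_zero]
    exact one_dvd _
  by_cases h3 : q = 3
  · subst h3
    have hk2 : k ≤ 2 := by
      by_contra hc
      push Not at hc
      exact not_dvd_27 m ((pow_dvd_pow 3 hc).trans hm)
    exact (pow_dvd_pow 3 hk2).trans (by norm_num)
  · have hcop : Nat.Coprime 3 (q ^ k) :=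
      Nat.Coprime.pow_right k ((Nat.coprime_primes Nat.prime_three hq).2 (Ne.symm h3))
    obtain ⟨s, hs, hsm⟩ := exists_root hcop hm
    rcases dvd_or hq h3 hk0 hnm.le hm hn with h4 | h4
    · have h5 := h1 _ s hs hsm (pow_rank s hs h4)
      exact ((Int.natCast_dvd.1 h5).mul_right _).mul_left _
    · have h5 := h2 _ s hs hsm (pow_rank s hs h4)
      exact ((Int.natCast_dvd.1 h5).mul_left _).mul_left _

theorem gcd_lt {m n : ℕ} (hnm : n < m) : Real.log (Nat.gcd (N m) (N n)) ≤ 10 * √m + 13 := by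
  obtain ⟨A, B, hAB, hA, hB, h1⟩ := pair_aux m (l := m - n) (by omega)
  obtain ⟨A', B', hAB', hA', hB', h2⟩ := pair_aux m (l := m + n) (by omega)
  have hd := gcd_dvd hnm h1 h2
  have g1 : 0 < (G A B).natAbs := Int.natAbs_pos.2 (G_ne hAB)
  have g2 : 0 < (G A' B').natAbs := Int.natAbs_pos.2 (G_ne hAB')
  have g0 : 0 < Nat.gcd (N m) (N n) := Nat.gcd_pos_of_pos_left _ (N_pos m)
  have h3 : ((Nat.gcd (N m) (N n) : ℕ) : ℝ) ≤ 9 * (((G A B).natAbs : ℝ) * ((G A' B').natAbs : ℝ)) := by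
    exact_mod_cast Nat.le_of_dvd (by positivity) hd
  have e1 : Real.log ((G A B).natAbs : ℝ) ≤ 5 * ((Nat.sqrt (m - n) + 1 : ℕ) : ℝ) := by
    rw [Nat.cast_natAbs, Int.cast_abs]
    exact G_le hA hB
  have e2 : Real.log ((G A' B').natAbs : ℝ) ≤ 5 * ((Nat.sqrt (m + n) + 1 : ℕ) : ℝ) := by
    rw [Nat.cast_natAbs, Int.cast_abs]
    exact G_le hA' hB'
  have g1' : (0 : ℝ) < ((G A B).natAbs : ℝ) := by exact_mod_cast g1
  have g2' : (0 : ℝ) < ((G A' B').natAbs : ℝ) := by exact_mod_cast g2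
  have h4 : Real.log (Nat.gcd (N m) (N n)) ≤ Real.log 9 + (Real.log ((G A B).natAbs : ℝ) +
      Real.log ((G A' B').natAbs : ℝ)) := by
    rw [← Real.log_mul g1'.ne' g2'.ne', ← Real.log_mul (by norm_num) (by positivity)]
    exact Real.log_le_log (by exact_mod_cast g0) h3
  have h6 : Real.log 9 ≤ 3 := by
    rw [Real.log_le_iff_le_exp (by norm_num)]
    have h7 := Real.exp_one_gt_d9
    have h8 : Real.exp 3 = Real.exp 1 * Real.exp 1 * Real.exp 1 := by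
      rw [← Real.exp_add, ← Real.exp_add]
      norm_num
    rw [h8]
    have h9 : (2.7 : ℝ) * 2.7 ≤ Real.exp 1 * Real.exp 1 := by nlinarith
    nlinarith
  have f1 : ((Nat.sqrt (m - n) : ℕ) : ℝ) ≤ √((m - n : ℕ) : ℝ) := Real.nat_sqrt_le_real_sqrt
  have f2 : ((Nat.sqrt (m + n) : ℕ) : ℝ) ≤ √((m + n : ℕ) : ℝ) := Real.nat_sqrt_le_real_sqrt
  have f3 : √((m - n : ℕ) : ℝ) + √((m + n : ℕ) : ℝ) ≤ 2 * √m := by
    have k1 : √((m - n : ℕ) : ℝ) ^ 2 = (m : ℝ) - n := by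
      rw [Real.sq_sqrt (Nat.cast_nonneg _), Nat.cast_sub hnm.le]
    have k2 : √((m + n : ℕ) : ℝ) ^ 2 = (m : ℝ) + n := by
      rw [Real.sq_sqrt (Nat.cast_nonneg _), Nat.cast_add]
    have k3 : √(m : ℝ) ^ 2 = m := Real.sq_sqrt (Nat.cast_nonneg _)
    have k4 := Real.sqrt_nonneg (m : ℝ)
    refine abs_le_of_sq_le_sq' ?_ (by positivity) |>.2
    nlinarith [sq_nonneg (√((m - n : ℕ) : ℝ) - √((m + n : ℕ) : ℝ))]
  push_cast at e1 e2 f1 f2 f3 ⊢
  linarith

theorem gcd_le {m n : ℕ} (h : m ≠ n) : Real.log (Nat.gcd (N m) (N n)) ≤ 10 * √(max m n : ℕ) + 13 := by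
  rcases lt_or_gt_of_ne h with h | h
  · rw [max_eq_right h.le, Nat.gcd_comm]
    exact gcd_lt h
  · rw [max_eq_left h.le]
    exact gcd_lt h

end Pool.Agent.L5helper52.LC
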